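import Pool.Agent.Lib.MP_b50536_gt.QT.Main

/-! Every quasiconformal tree embeds quasisymmetrically in the plane with quasi-convex image. -/

theorem Pool.Agent.Results.MP_b50536_gt.Planar.result (T : Type*) [MetricSpace T] [CompactSpace T]
    (hU : QT.UniqueArcs T) (hD : QT.Doubling T) (hK : QT.BddTurning T) :
    ∃ F : T → ℂ, QT.IsQS F ∧ QT.QuasiConvex (Set.range F) :=
  QT.main T hU hD hK
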